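import Pool.Agent.W606.PS.Stm

set_option autoImplicit false

open Set Relation

namespace Pool.Agent.W442.PS

open Pool.Agent.W606.PS

theorem core {A : Type} [Fintype A] (G : SimpleGraph A) (f : A → ℂ) (hf : Function.Injective f)
    (p q : Sym2 A → A) (g : Sym2 A → ℝ → ℂ)
    (hpq : ∀ e, e = s(p e, q e))
    (hc : ∀ e, Continuous (g e))
    (h0 : ∀ e ∈ G.edgeSet, g e 0 = f (p e)) (h1 : ∀ e ∈ G.edgeSet, g e 1 = f (q e))
    (hi : ∀ e ∈ G.edgeSet, Set.InjOn (g e) (Icc 0 1))
    (hv : ∀ e ∈ G.edgeSet, ∀ s ∈ Icc (0 : ℝ) 1, ∀ w, g e s = f w → w = p e ∨ w = q e)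
    (hx : ∀ e ∈ G.edgeSet, ∀ e' ∈ G.edgeSet, e ≠ e' → ∀ s ∈ Icc (0 : ℝ) 1, ∀ t ∈ Icc (0 : ℝ) 1,
      g e s = g e' t → ∃ w, g e s = f w) :
    ∃ (Kv : A → Set ℂ) (Ke : Sym2 A → Set ℂ), CModel G Kv Ke := by
  classical
  have z0 : (0 : ℝ) ∈ Icc (0 : ℝ) 1 := by constructor <;> norm_num
  have z1 : (1 : ℝ) ∈ Icc (0 : ℝ) 1 := by constructor <;> norm_num
  -- parameters of vertices
  have F1 : ∀ e ∈ G.edgeSet, ∀ s ∈ Icc (0 : ℝ) 1, ∀ w, g e s = f w →
      (w = p e ∧ s = 0) ∨ (w = q e ∧ s = 1) := by
    intro e he s hs w h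
    rcases hv e he s hs w h with h' | h'
    · left
      refine ⟨h', ?_⟩
      rw [h', ← h0 e he] at h
      exact hi e he hs z0 h
    · right
      refine ⟨h', ?_⟩
      rw [h', ← h1 e he] at h
      exact hi e he hs z1 h
  have F3 : ∀ e ∈ G.edgeSet, ∀ e' ∈ G.edgeSet, e ≠ e' → ∀ s ∈ Icc (0 : ℝ) 1,
      ∀ t ∈ Icc (0 : ℝ) 1, g e s = g e' t → ∃ w, ((w = p e ∧ s = 0) ∨ (w = q e ∧ s = 1)) ∧
        ((w = p e' ∧ t = 0) ∨ (w = q e' ∧ t = 1)) := by
    intro e he e' he' hee s hs t ht h
    obtain ⟨w, hw⟩ := hx e he e' he' hee s hs t ht h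
    exact ⟨w, F1 e he s hs w hw, F1 e' he' t ht w (h ▸ hw)⟩
  let I : Sym2 A → A → Set ℝ := fun e u =>
    if u = p e then Icc 0 (1 / 3) else if u = q e then Icc (2 / 3) 1 else ∅
  have I1 : ∀ e u s, s ∈ I e u → (u = p e ∧ 0 ≤ s ∧ s ≤ 1 / 3) ∨
      (u = q e ∧ 2 / 3 ≤ s ∧ s ≤ 1) := by
    intro e u s hs
    by_cases h : u = p e
    · simp only [I, if_pos h] at hs
      exact Or.inl ⟨h, hs.1, hs.2⟩
    · by_cases h' : u = q e
      · simp only [I, if_neg h, if_pos h'] at hs
        exact Or.inr ⟨h', hs.1, hs.2⟩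
      · simp only [I, if_neg h, if_neg h'] at hs
        exact absurd hs (by simp)
  have I01 : ∀ e u s, s ∈ I e u → s ∈ Icc (0 : ℝ) 1 := by
    intro e u s hs
    rcases I1 e u s hs with h | h
    · exact ⟨h.2.1, by linarith [h.2.2]⟩
    · exact ⟨by linarith [h.2.1], h.2.2⟩
  have Icpt : ∀ e u, IsCompact (I e u) := by
    intro e u
    by_cases h : u = p e
    · simp only [I, if_pos h]; exact isCompact_Icc
    · by_cases h' : u = q e
      · simp only [I, if_neg h, if_pos h']; exact isCompact_Icc
      · simp only [I, if_neg h, if_neg h']; exact isCompact_empty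
  have Ipre : ∀ e u, IsPreconnected (I e u) := by
    intro e u
    by_cases h : u = p e
    · simp only [I, if_pos h]; exact isPreconnected_Icc
    · by_cases h' : u = q e
      · simp only [I, if_neg h, if_pos h']; exact isPreconnected_Icc
      · simp only [I, if_neg h, if_neg h']; exact isPreconnected_empty
  -- the base point
  have Ibase : ∀ e ∈ G.edgeSet, ∀ u s, s ∈ I e u → f u ∈ g e '' I e u := by
    intro e he u s hs
    by_cases h : u = p e
    · refine ⟨0, ?_, ?_⟩
      · simp only [I, if_pos h]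
        constructor <;> norm_num
      · rw [h0 e he, h]
    · by_cases h' : u = q e
      · refine ⟨1, ?_, ?_⟩
        · simp only [I, if_neg h, if_pos h']
          constructor <;> norm_num
        · rw [h1 e he, h']
      · simp only [I, if_neg h, if_neg h'] at hs
        exact absurd hs (by simp)
  let Kv : A → Set ℂ := fun u => {f u} ∪ ⋃ e ∈ G.edgeSet, g e '' I e u
  let Ke : Sym2 A → Set ℂ := fun e => g e '' Icc (1 / 3) (2 / 3)
  have m01 : ∀ s : ℝ, s ∈ Icc (1 / 3 : ℝ) (2 / 3) → s ∈ Icc (0 : ℝ) 1 := by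
    intro s hs
    exact ⟨by linarith [hs.1], by linarith [hs.2]⟩
  have mKv : ∀ u z, z ∈ Kv u → z = f u ∨ ∃ e ∈ G.edgeSet, ∃ s ∈ I e u, g e s = z := by
    intro u z hz
    rcases hz with hz | hz
    · exact Or.inl hz
    · right
      simp only [mem_iUnion] at hz
      obtain ⟨e, he, s, hs, h⟩ := hz
      exact ⟨e, he, s, hs, h⟩
  refine ⟨Kv, Ke, ?_, ?_, ?_, ?_, ?_, ?_⟩
  · intro u
    refine ⟨?_, ?_, ?_⟩
    · apply isCompact_singleton.union
      apply Set.Finite.isCompact_biUnion (Set.toFinite _)
      intro e _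
      exact (Icpt e u).image (hc e)
    · exact ⟨f u, Or.inl rfl⟩
    · apply isPreconnected_of_forall (f u)
      intro y hy
      rcases hy with hy | hy
      · refine ⟨{f u}, ?_, rfl, hy, isPreconnected_singleton⟩
        exact subset_union_left
      · simp only [mem_iUnion] at hy
        obtain ⟨e, he, s, hs, h⟩ := hy
        refine ⟨g e '' I e u, ?_, Ibase e he u s hs, ⟨s, hs, h⟩,
          (Ipre e u).image _ (hc e).continuousOn⟩
        intro z hz
        right
        simp only [mem_iUnion]
        exact ⟨e, he, hz⟩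
  · intro e he
    refine ⟨isCompact_Icc.image (hc e), ?_⟩
    exact (isConnected_Icc (by norm_num)).image _ (hc e).continuousOn
  · intro u v huv
    rw [Set.disjoint_left]
    intro z hz hz'
    -- both memberships
    have key : ∀ a b, a ≠ b → ∀ e ∈ G.edgeSet, ∀ s ∈ I e a, g e s ≠ f b := by
      intro a b hab e he s hs h
      rcases F1 e he s (I01 e a s hs) b h with h' | h'
      · rcases I1 e a s hs with h'' | h''
        · exact hab (h''.1.trans h'.1.symm)
        · linarith [h''.2.1, h'.2]
      · rcases I1 e a s hs with h'' | h''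
        · linarith [h''.2.2, h'.2]
        · exact hab (h''.1.trans h'.1.symm)
    rcases mKv u z hz with h | ⟨e, he, s, hs, h⟩
    · rcases mKv v z hz' with h' | ⟨e', he', s', hs', h'⟩
      · exact huv (hf (h.symm.trans h'))
      · exact key v u huv.symm e' he' s' hs' (h'.trans h)
    · rcases mKv v z hz' with h' | ⟨e', he', s', hs', h'⟩
      · exact key u v huv e he s hs (h.trans h')
      · by_cases hee : e = e'
        · subst hee
          have hss : s = s' := hi e he (I01 e u s hs) (I01 e v s' hs') (h.trans h'.symm)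
          subst hss
          rcases I1 e u s hs with a | a <;> rcases I1 e v s hs' with b | b
          · exact huv (a.1.trans b.1.symm)
          · linarith [a.2.2, b.2.1]
          · linarith [a.2.1, b.2.2]
          · exact huv (a.1.trans b.1.symm)
        · obtain ⟨w, hw, hw'⟩ := F3 e he e' he' hee s (I01 e u s hs) s' (I01 e' v s' hs')
            (h.trans h'.symm)
          have c1 : w = u := by
            rcases I1 e u s hs with a | a <;> rcases hw with b | b
            · exact b.1.trans a.1.symm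
            · linarith [a.2.2, b.2]
            · linarith [a.2.1, b.2]
            · exact b.1.trans a.1.symm
          have c2 : w = v := by
            rcases I1 e' v s' hs' with a | a <;> rcases hw' with b | b
            · exact b.1.trans a.1.symm
            · linarith [a.2.2, b.2]
            · linarith [a.2.1, b.2]
            · exact b.1.trans a.1.symm
          exact huv (c1.symm.trans c2)
  · intro e he u hu
    rw [hpq e, Sym2.mem_iff] at hu
    by_cases h : u = p e
    · refine ⟨g e (1 / 3), ⟨1 / 3, by constructor <;> norm_num, rfl⟩, ?_⟩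
      right
      simp only [mem_iUnion]
      refine ⟨e, he, 1 / 3, ?_, rfl⟩
      simp only [I, if_pos h]
      constructor <;> norm_num
    · have h' : u = q e := by
        rcases hu with hu | hu
        · exact absurd hu h
        · exact hu
      refine ⟨g e (2 / 3), ⟨2 / 3, by constructor <;> norm_num, rfl⟩, ?_⟩
      right
      simp only [mem_iUnion]
      refine ⟨e, he, 2 / 3, ?_, rfl⟩
      simp only [I, if_neg h, if_pos h']
      constructor <;> norm_num
  · intro e he u hu
    rw [Set.disjoint_left]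
    rintro z ⟨s, hs, hz⟩ hz'
    have hu' : u ≠ p e ∧ u ≠ q e := by
      rw [hpq e, Sym2.mem_iff] at hu
      exact not_or.mp hu
    rcases mKv u z hz' with h | ⟨e', he', s', hs', h'⟩
    · rcases hv e he s (m01 s hs) u (hz.trans h) with h' | h'
      · exact hu'.1 h'
      · exact hu'.2 h'
    · by_cases hee : e = e'
      · subst hee
        rcases I1 e u s' hs' with a | a
        · exact hu'.1 a.1
        · exact hu'.2 a.1
      · obtain ⟨w, hw, hw'⟩ := F3 e he e' he' hee s (m01 s hs) s' (I01 e' u s' hs')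
            (hz.trans h'.symm)
        rcases hw with b | b
        · linarith [hs.1, b.2]
        · linarith [hs.2, b.2]
  · intro e he e' he' hee
    rw [Set.disjoint_left]
    rintro z ⟨s, hs, hz⟩ ⟨s', hs', hz'⟩
    obtain ⟨w, hw, hw'⟩ := F3 e he e' he' hee s (m01 s hs) s' (m01 s' hs') (hz.trans hz'.symm)
    rcases hw with b | b
    · linarith [hs.1, b.2]
    · linarith [hs.2, b.2]

theorem main : S_ANA1 := by
  classical
  intro A _ G hD
  obtain ⟨f, γ, hf, hinj, hv, hx⟩ := hD
  let p : Sym2 A → A := fun e => (Quot.out e).1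
  let q : Sym2 A → A := fun e => (Quot.out e).2
  have hpq : ∀ e : Sym2 A, e = s(p e, q e) := fun e => (Quot.out_eq e).symm
  have hadj : ∀ e ∈ G.edgeSet, G.Adj (p e) (q e) := by
    intro e he
    rw [hpq e] at he
    exact (SimpleGraph.mem_edgeSet G).mp he
  let g : Sym2 A → ℝ → ℂ := fun e =>
    if h : G.Adj (p e) (q e) then (γ (p e) (q e) h).extend else fun _ => 0
  have hg : ∀ e (he : e ∈ G.edgeSet), g e = (γ (p e) (q e) (hadj e he)).extend := by
    intro e he
    simp only [g, dif_pos (hadj e he)]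
  have hext : ∀ e (he : e ∈ G.edgeSet) (s : ℝ) (hs : s ∈ Icc (0 : ℝ) 1),
      g e s = γ (p e) (q e) (hadj e he) ⟨s, hs⟩ := by
    intro e he s hs
    rw [hg e he]
    exact Path.extend_apply _ hs
  refine core G f hf p q g hpq ?_ ?_ ?_ ?_ ?_ ?_
  · intro e
    by_cases h : G.Adj (p e) (q e)
    · simp only [g, dif_pos h]
      exact Path.continuous_extend _
    · simp only [g, dif_neg h]
      exact continuous_const
  · intro e he
    rw [hg e he]
    exact Path.extend_zero _
  · intro e he
    rw [hg e he]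
    exact Path.extend_one _
  · intro e he s hs t ht h
    rw [hext e he s hs, hext e he t ht] at h
    have := hinj _ _ _ h
    exact congrArg Subtype.val this
  · intro e he s hs w h
    rw [hext e he s hs] at h
    exact hv _ _ _ _ _ h
  · intro e he e' he' hee s hs t ht h
    rw [hext e he s hs, hext e' he' t ht] at h
    obtain ⟨w, _, _, hw⟩ := hx _ _ _ _ (hadj e he) (hadj e' he') ⟨s, hs⟩ ⟨t, ht⟩ h
      (by rw [← hpq e, ← hpq e']; exact hee)
    exact ⟨w, by rw [hext e he s hs]; exact hw⟩

end Pool.Agent.W442.PS
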